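import Mathlib

/-!
# Integral points of a congruence subgroup of the Pell torus over CM fields
-/

set_option autoImplicit false

namespace Pool.Agent.K1H61.Zst

open NumberField ComplexConjugate

/-- all solutions of `(1+3s)² - 9 D t² = 1` in `R` are rational integers -/
def Good (D : ℤ) (R : Type) [CommRing R] : Prop :=
  ∀ s t : R, (1 + 3 * s) ^ 2 - 9 * (D : R) * t ^ 2 = 1 → ∃ a b : ℤ, s = a ∧ t = b

theorem real_of_eq (D : ℝ) (hD : 0 < D) (X Y : ℂ) (h1 : X ^ 2 - (D : ℂ) * Y ^ 2 = 1)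
    (h2 : ‖X‖ ^ 2 - D * ‖Y‖ ^ 2 = 1) : conj X = X ∧ conj Y = Y := by
  have hX : ‖X‖ ^ 2 = X.re ^ 2 + X.im ^ 2 := by
    rw [Complex.sq_norm, Complex.normSq_apply]; ring
  have hY : ‖Y‖ ^ 2 = Y.re ^ 2 + Y.im ^ 2 := by
    rw [Complex.sq_norm, Complex.normSq_apply]; ring
  rw [hX, hY] at h2
  have hre : X.re ^ 2 - X.im ^ 2 - D * (Y.re ^ 2 - Y.im ^ 2) = 1 := by
    have := congrArg Complex.re h1
    simp only [pow_two, Complex.sub_re, Complex.mul_re, Complex.ofReal_re, Complex.ofReal_im,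
      Complex.one_re, Complex.mul_im] at this
    linarith
  have him : X.re * X.im = D * (Y.re * Y.im) := by
    have := congrArg Complex.im h1
    simp only [pow_two, Complex.sub_im, Complex.mul_im, Complex.ofReal_re, Complex.ofReal_im,
      Complex.one_im, Complex.mul_re] at this
    linarith
  have h3 : X.im ^ 2 = D * Y.im ^ 2 := by linarith
  have h4 : X.re ^ 2 - D * Y.re ^ 2 = 1 := by linarith
  have h5 : Y.im ^ 2 = 0 := by
    have h6 : (X.re * X.im) ^ 2 = (D * (Y.re * Y.im)) ^ 2 := by rw [him]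
    have h7 : D * Y.im ^ 2 * (X.re ^ 2 - D * Y.re ^ 2) = 0 := by
      have : X.re ^ 2 * X.im ^ 2 = D ^ 2 * (Y.re ^ 2 * Y.im ^ 2) := by linarith [h6, mul_pow X.re X.im 2, mul_pow D (Y.re * Y.im) 2, mul_pow Y.re Y.im 2]
      rw [h3] at this
      linear_combination this
    rw [h4, mul_one] at h7
    exact (mul_eq_zero.mp h7).resolve_left hD.ne'
  have h6 : Y.im = 0 := pow_eq_zero_iff (two_ne_zero) |>.mp h5
  have h7 : X.im = 0 := by
    rw [h5, mul_zero] at h3
    exact pow_eq_zero_iff (two_ne_zero) |>.mp h3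
  exact ⟨Complex.conj_eq_iff_im.mpr h7, Complex.conj_eq_iff_im.mpr h6⟩

theorem good_cm (K : Type) [Field K] [NumberField K] [IsCMField K] (D : ℤ) (hD : 0 < D)
    (hF : Good D (𝓞 (maximalRealSubfield K))) : Good D (𝓞 K) := by
  intro s t hst
  let τ := IsCMField.ringOfIntegersComplexConj K
  have hτ : ∀ (φ : K →+* ℂ) (x : 𝓞 K), φ ((τ x : 𝓞 K) : K) = conj (φ (x : K)) := by
    intro φ x
    show φ ((τ x : 𝓞 K) : K) = _
    rw [IsCMField.coe_ringOfIntegersComplexConj, IsCMField.complexEmbedding_complexConj]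
  set z : 𝓞 K := (s + τ s) + 3 * (s * τ s) - 3 * (D : 𝓞 K) * (t * τ t) with hz
  have key : ∀ φ : K →+* ℂ, φ ((3 * z + 1 : 𝓞 K) : K) =
      (((‖1 + 3 * φ (s : K)‖ ^ 2 - (D : ℝ) * ‖3 * φ (t : K)‖ ^ 2 : ℝ)) : ℂ) := by
    intro φ
    have e1 : (3 * z + 1 : 𝓞 K) = (1 + 3 * s) * (1 + 3 * τ s) - (D : 𝓞 K) * ((3 * t) * (3 * τ t)) := by
      rw [hz]; ring
    rw [e1]
    push_cast
    simp only [map_sub, map_mul, map_add, map_one, map_ofNat, map_intCast]
    have h1 : ∀ w : ℂ, ((‖w‖ ^ 2 : ℝ) : ℂ) = w * conj w := by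
      intro w
      rw [Complex.mul_conj, Complex.normSq_eq_norm_sq]
    have h2 : (φ (τ s : 𝓞 K)) = conj (φ (s : K)) := hτ φ s
    have h3 : (φ (τ t : 𝓞 K)) = conj (φ (t : K)) := hτ φ t
    have h4 := h1 (1 + 3 * φ (s : K))
    have h5 := h1 (3 * φ (t : K))
    push_cast at h4 h5
    rw [h4, h5, h2, h3]
    simp only [map_add, map_mul, map_one, map_ofNat]
  have eqn : ∀ φ : K →+* ℂ, (1 + 3 * φ (s : K)) ^ 2 - ((D : ℝ) : ℂ) * (3 * φ (t : K)) ^ 2 = 1 := by
    intro φ
    have h1 := congrArg (fun x : 𝓞 K => φ (x : K)) hst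
    simp only [map_sub, map_mul, map_add, map_one, map_ofNat, map_intCast, map_pow] at h1
    push_cast
    push_cast at h1
    linear_combination h1
  have bound : ∀ φ : K →+* ℂ, ‖φ ((3 * z + 1 : 𝓞 K) : K)‖ ≤ 1 := by
    intro φ
    rw [key φ]
    have h1 := eqn φ
    have hD' : (0 : ℝ) < D := by exact_mod_cast hD
    have h2 : ‖(1 + 3 * φ (s : K)) ^ 2‖ = ‖1 + 3 * φ (s : K)‖ ^ 2 := norm_pow _ _
    have h3 : ‖((D : ℝ) : ℂ) * (3 * φ (t : K)) ^ 2‖ = (D : ℝ) * ‖3 * φ (t : K)‖ ^ 2 := by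
      rw [norm_mul, norm_pow, Complex.norm_real, Real.norm_of_nonneg hD'.le]
    rw [Complex.norm_real, ← h2, ← h3]
    refine (abs_norm_sub_norm_le _ _).trans ?_
    rw [h1]
    simp
  have z0 : z = 0 := by
    by_contra hne
    have hlt : ∀ w : InfinitePlace K, w (z : K) < 1 := by
      intro w
      rw [← InfinitePlace.norm_embedding_eq]
      have h1 := bound w.embedding
      have h2 : w.embedding ((3 * z + 1 : 𝓞 K) : K) = 3 * w.embedding (z : K) + 1 := by
        push_cast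
        simp only [map_mul, map_add, map_one, map_ofNat]
      rw [h2] at h1
      have h3 : ‖3 * w.embedding (z : K)‖ ≤ 2 := by
        calc ‖3 * w.embedding (z : K)‖ = ‖(3 * w.embedding (z : K) + 1) - 1‖ := by
              congr 1; ring
          _ ≤ ‖3 * w.embedding (z : K) + 1‖ + ‖(1 : ℂ)‖ := norm_sub_le _ _
          _ ≤ 2 := by rw [norm_one]; linarith
      rw [norm_mul] at h3
      have h4 : ‖(3 : ℂ)‖ = 3 := by norm_num
      rw [h4] at h3
      linarith
    obtain ⟨w⟩ := (inferInstance : Nonempty (InfinitePlace K))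
    exact absurd (InfinitePlace.one_le_of_lt_one (w := w) hne (fun z' _ => hlt z'))
      (not_le.mpr (hlt w))
  have hre : ∀ φ : K →+* ℂ, conj (1 + 3 * φ (s : K)) = 1 + 3 * φ (s : K) ∧
      conj (3 * φ (t : K)) = 3 * φ (t : K) := by
    intro φ
    refine real_of_eq D (by exact_mod_cast hD) _ _ (eqn φ) ?_
    have h1 := key φ
    rw [z0] at h1
    have h2 : φ ((3 * 0 + 1 : 𝓞 K) : K) = 1 := by simp
    rw [h2] at h1
    exact_mod_cast h1.symm
  obtain ⟨φ⟩ := (inferInstance : Nonempty (K →+* ℂ))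
  have hs : τ s = s := by
    apply RingOfIntegers.ext
    apply φ.injective
    rw [hτ]
    have := (hre φ).1
    simp only [map_add, map_mul, map_one, map_ofNat] at this
    have h3 : (3 : ℂ) ≠ 0 := by norm_num
    have h4 : (3 : ℂ) * conj (φ (s : K)) = 3 * φ (s : K) := by linear_combination this
    exact mul_left_cancel₀ h3 h4
  have ht : τ t = t := by
    apply RingOfIntegers.ext
    apply φ.injective
    rw [hτ]
    have := (hre φ).2
    simp only [map_mul, map_ofNat] at this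
    have h3 : (3 : ℂ) ≠ 0 := by norm_num
    exact mul_left_cancel₀ h3 this
  obtain ⟨s0, hs0⟩ := (IsCMField.ringOfIntegersComplexConj_eq_self_iff K s).mp hs
  obtain ⟨t0, ht0⟩ := (IsCMField.ringOfIntegersComplexConj_eq_self_iff K t).mp ht
  have hinj : Function.Injective (algebraMap (𝓞 (maximalRealSubfield K)) (𝓞 K)) :=
    FaithfulSMul.algebraMap_injective _ _
  have h0 : (1 + 3 * s0) ^ 2 - 9 * (D : 𝓞 (maximalRealSubfield K)) * t0 ^ 2 = 1 := by
    apply hinj
    rw [map_sub, map_pow, map_add, map_mul, map_mul, map_mul, map_pow, map_one, map_ofNat,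
      map_ofNat, map_intCast, hs0, ht0]
    exact hst
  obtain ⟨a, b, ha, hb⟩ := hF s0 t0 h0
  refine ⟨a, b, ?_, ?_⟩
  · rw [← hs0, ha, map_intCast]
  · rw [← ht0, hb, map_intCast]

end Pool.Agent.K1H61.Zst
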