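import Pool.Agent.K1H61.Zst.Quad

/-!
# The fields, the solutions over the integers, and the scheme
-/

set_option autoImplicit false

namespace Pool.Agent.K1H61.Zst

open NumberField ComplexConjugate Module

/-- a real embedding shows that `d` is not negative -/
theorem nonneg_of_real {K : Type} [Field K] [NumberField K] (δ : 𝓞 K) (d : ℤ)
    (hd : ((δ : K)) ^ 2 = (d : K)) (v : InfinitePlace K) (hv : v.IsReal) : 0 ≤ d := by
  have h1 : ComplexEmbedding.IsReal v.embedding := InfinitePlace.isReal_iff.mp hv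
  have h2 : conj (v.embedding (δ : K)) = v.embedding (δ : K) := by
    have := congrArg (fun f : K →+* ℂ => f (δ : K)) h1
    exact this
  have h3 : (v.embedding (δ : K)).im = 0 := Complex.conj_eq_iff_im.mp h2
  have h4 := congrArg v.embedding hd
  rw [map_pow, map_intCast] at h4
  have h5 := congrArg Complex.re h4
  rw [pow_two, Complex.mul_re, h3] at h5
  have h6 : (0 : ℝ) ≤ (d : ℝ) := by
    have h7 : (d : ℂ).re = (d : ℝ) := Complex.intCast_re d
    rw [h7] at h5
    rw [← h5]
    nlinarith [mul_self_nonneg ((v.embedding (δ : K)).re)]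
  exact_mod_cast h6

theorem ne_zero_of_nonsquare {d : ℤ} (h : ¬ IsSquare d) : d ≠ 0 := by
  rintro rfl
  exact h ⟨0, by norm_num⟩

theorem exists_good (K : Type) [Field K] [NumberField K]
    (h : finrank ℚ K = 2 ∨ (IsCMField K ∧ finrank ℚ K = 4)) :
    ∃ D : ℤ, 0 < D ∧ ¬ IsSquare D ∧ Good D (𝓞 K) := by
  rcases h with h | ⟨hCM, h⟩
  · obtain ⟨σ, δ, d, hd, hns, hσδ, hσσ, hfix⟩ := quad_struct K h
    rcases lt_or_ge 0 d with hpos | hneg
    · exact ⟨d, hpos, hns, good_quad K σ δ d hd hpos.ne' hσδ hσσ hfix⟩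
    · have hneg' : d < 0 := lt_of_le_of_ne hneg (ne_zero_of_nonsquare hns)
      haveI : IsTotallyComplex K := ⟨fun v => by
        by_contra hv
        have := nonneg_of_real δ d hd v (InfinitePlace.not_isComplex_iff_isReal.mp hv)
        omega⟩
      haveI : Algebra.IsQuadraticExtension ℚ K := ⟨h⟩
      haveI : IsCMField K := IsCMField.ofCMExtension ℚ K
      have h1 : finrank ℚ (maximalRealSubfield K) = 1 := by
        have h2 := finrank_mul_finrank ℚ (maximalRealSubfield K) K
        rw [h, Algebra.IsQuadraticExtension.finrank_eq_two (maximalRealSubfield K) K] at h2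
        omega
      have hns2 : ¬ IsSquare (2 : ℤ) := by
        rintro ⟨c, hc⟩
        have h3 : c ≤ 1 := by nlinarith
        have h4 : -1 ≤ c := by nlinarith
        interval_cases c <;> omega
      exact ⟨2, by norm_num, hns2, good_cm K 2 (by norm_num) (good_one _ h1 2)⟩
  · haveI := hCM
    have h1 : finrank ℚ (maximalRealSubfield K) = 2 := by
      have h2 := finrank_mul_finrank ℚ (maximalRealSubfield K) K
      rw [h, Algebra.IsQuadraticExtension.finrank_eq_two (maximalRealSubfield K) K] at h2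
      omega
    obtain ⟨σ, δ, d, hd, hns, hσδ, hσσ, hfix⟩ := quad_struct (maximalRealSubfield K) h1
    have hd0 := ne_zero_of_nonsquare hns
    obtain ⟨v⟩ := (inferInstance : Nonempty (InfinitePlace (maximalRealSubfield K)))
    have hd1 := nonneg_of_real δ d hd v (IsTotallyReal.isReal v)
    have hpos : 0 < d := lt_of_le_of_ne hd1 hd0.symm
    exact ⟨d, hpos, hns, good_cm K d hpos (good_quad _ σ δ d hd hd0 hσδ hσσ hfix)⟩

/-- infinitely many solutions over the integers -/
theorem infinite_sol (D : ℤ) (hD : 0 < D) (hns : ¬ IsSquare D) :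
    {z : ℤ × ℤ | (1 + 3 * z.1) ^ 2 - 9 * D * z.2 ^ 2 = 1}.Infinite := by
  have hns9 : ¬ IsSquare (9 * D) := by
    rintro ⟨c, hc⟩
    have h1 : (3 : ℤ) ∣ c := by
      have h2 : (3 : ℤ) ∣ c * c := ⟨3 * D, by rw [← hc]; ring⟩
      rcases (Int.prime_three.dvd_mul).mp h2 with h | h <;> exact h
    obtain ⟨e, he⟩ := h1
    apply hns
    refine ⟨e, ?_⟩
    rw [he] at hc
    linarith
  obtain ⟨x0, y0, hxy, hy0⟩ := Pell.exists_of_not_isSquare (by linarith : 0 < 9 * D) hns9
  -- unbounded values of `1 + 3 s`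
  have step : ∀ n : ℕ, ∃ s t : ℤ, (1 + 3 * s) ^ 2 - 9 * D * t ^ 2 = 1 ∧ (n : ℤ) + 1 < 1 + 3 * s := by
    intro n
    induction n with
    | zero =>
      refine ⟨6 * D * y0 ^ 2, 2 * x0 * y0, ?_, ?_⟩
      · have h1 : 1 + 3 * (6 * D * y0 ^ 2) = 2 * x0 ^ 2 - 1 := by linear_combination -2 * hxy
        rw [h1]
        linear_combination 4 * x0 ^ 2 * hxy
      · have : 0 < y0 ^ 2 := by positivity
        push_cast
        nlinarith
    | succ n ih =>
      obtain ⟨s, t, h1, h2⟩ := ih
      refine ⟨6 * D * t ^ 2, 2 * (1 + 3 * s) * t, ?_, ?_⟩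
      · have h3 : 1 + 3 * (6 * D * t ^ 2) = 2 * (1 + 3 * s) ^ 2 - 1 := by
          linear_combination -2 * h1
        rw [h3]
        linear_combination 4 * (1 + 3 * s) ^ 2 * h1
      · have h3 : 1 + 3 * (6 * D * t ^ 2) = 2 * (1 + 3 * s) ^ 2 - 1 := by
          linear_combination -2 * h1
        rw [h3]
        push_cast
        have h4 : (0 : ℤ) ≤ n := Int.natCast_nonneg n
        nlinarith
  intro hfin
  obtain ⟨M, hM⟩ := (hfin.image (fun z : ℤ × ℤ => 1 + 3 * z.1)).bddAbove
  obtain ⟨s, t, h1, h2⟩ := step M.toNat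
  have h3 : 1 + 3 * s ≤ M := hM ⟨(s, t), h1, rfl⟩
  have h4 : M ≤ (M.toNat : ℤ) := Int.self_le_toNat M
  linarith

open AlgebraicGeometry CategoryTheory

/-- the polynomial -/
noncomputable def pol (D : ℤ) : MvPolynomial (Fin 2) ℤ :=
  (1 + 3 * MvPolynomial.X 0) ^ 2 - 9 * (D : MvPolynomial (Fin 2) ℤ) * MvPolynomial.X 1 ^ 2 - 1

/-- the coordinate ring -/
abbrev Co (D : ℤ) : Type := MvPolynomial (Fin 2) ℤ ⧸ Ideal.span {pol D}

/-- the point with coordinates `s, t` -/
noncomputable def pt (D : ℤ) {R : Type} [CommRing R] (s t : R)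
    (h : (1 + 3 * s) ^ 2 - 9 * (D : R) * t ^ 2 = 1) : Co D →+* R :=
  Ideal.Quotient.lift _ (MvPolynomial.eval₂Hom (Int.castRingHom R) ![s, t]) (by
    intro a ha
    rw [Ideal.mem_span_singleton] at ha
    obtain ⟨b, rfl⟩ := ha
    rw [map_mul]
    have : (MvPolynomial.eval₂Hom (Int.castRingHom R) ![s, t]) (pol D) = 0 := by
      simp only [pol, map_sub, map_pow, map_add, map_mul, map_one, map_ofNat, map_intCast,
        MvPolynomial.coe_eval₂Hom, MvPolynomial.eval₂_X,
        Matrix.cons_val_zero, Matrix.cons_val_one]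
      linear_combination h
    rw [this, zero_mul])

/-- the coordinates -/
noncomputable def cs (D : ℤ) : Co D := Ideal.Quotient.mk _ (MvPolynomial.X 0)
/-- the coordinates -/
noncomputable def ct (D : ℤ) : Co D := Ideal.Quotient.mk _ (MvPolynomial.X 1)

theorem pt_cs (D : ℤ) {R : Type} [CommRing R] (s t : R)
    (h : (1 + 3 * s) ^ 2 - 9 * (D : R) * t ^ 2 = 1) : pt D s t h (cs D) = s := by
  simp [pt, cs]

theorem pt_ct (D : ℤ) {R : Type} [CommRing R] (s t : R)
    (h : (1 + 3 * s) ^ 2 - 9 * (D : R) * t ^ 2 = 1) : pt D s t h (ct D) = t := by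
  simp [pt, ct]

theorem hom_eq (D : ℤ) {R : Type} [CommRing R] (f : Co D →+* R) :
    (1 + 3 * f (cs D)) ^ 2 - 9 * (D : R) * (f (ct D)) ^ 2 = 1 := by
  have h1 : (Ideal.Quotient.mk (Ideal.span {pol D}) (pol D)) = 0 :=
    Ideal.Quotient.eq_zero_iff_mem.mpr (Ideal.mem_span_singleton_self _)
  have h3 : ∀ (q : MvPolynomial (Fin 2) ℤ →+* R), q (pol D) =
      (1 + 3 * q (MvPolynomial.X 0)) ^ 2 - 9 * (D : R) * (q (MvPolynomial.X 1)) ^ 2 - 1 := by
    intro q
    simp only [pol, map_sub, map_pow, map_add, map_mul, map_one, map_ofNat, map_intCast]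
  have h2 := h3 (f.comp (Ideal.Quotient.mk (Ideal.span {pol D})))
  rw [RingHom.comp_apply, h1, map_zero] at h2
  have h4 : (1 + 3 * f (cs D)) ^ 2 - 9 * (D : R) * (f (ct D)) ^ 2 - 1 = 0 := h2.symm
  linear_combination h4

theorem hom_ext (D : ℤ) {R : Type} [CommRing R] (f g : Co D →+* R) (h0 : f (cs D) = g (cs D))
    (h1 : f (ct D) = g (ct D)) : f = g := by
  apply Ideal.Quotient.ringHom_ext
  apply MvPolynomial.ringHom_ext
  · intro r
    simp
  · intro i
    fin_cases i
    · exact h0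
    · exact h1

end Pool.Agent.K1H61.Zst
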