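import Pool.Agent.K1H61.Zst.CM

/-!
# Quadratic fields
-/

set_option autoImplicit false

namespace Pool.Agent.K1H61.Zst

open NumberField ComplexConjugate Module

theorem int_of_rat {K : Type} [Field K] [NumberField K] (x : 𝓞 K) (q : ℚ)
    (h : algebraMap ℚ K q = (x : K)) : ∃ a : ℤ, x = a := by
  have h1 : IsIntegral ℤ (algebraMap ℚ K q) := by
    rw [h]
    exact x.isIntegral_coe
  have h2 : IsIntegral ℤ q := (isIntegral_algebraMap_iff (algebraMap ℚ K).injective).mp h1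
  obtain ⟨a, ha⟩ := IsIntegrallyClosed.isIntegral_iff.mp h2
  refine ⟨a, ?_⟩
  apply RingOfIntegers.ext
  rw [← h, ← ha]
  simp

theorem good_one (K : Type) [Field K] [NumberField K] (h : finrank ℚ K = 1) (D : ℤ) :
    Good D (𝓞 K) := by
  intro s t _
  have h1 := (finrank_eq_one_iff_of_nonzero' (1 : K) one_ne_zero).mp h
  obtain ⟨q, hq⟩ := h1 (s : K)
  obtain ⟨r, hr⟩ := h1 (t : K)
  obtain ⟨a, ha⟩ := int_of_rat s q (by rw [← hq, Algebra.smul_def, mul_one])
  obtain ⟨b, hb⟩ := int_of_rat t r (by rw [← hr, Algebra.smul_def, mul_one])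
  exact ⟨a, b, ha, hb⟩

theorem quad_struct (K : Type) [Field K] [NumberField K] (h : finrank ℚ K = 2) :
    ∃ (σ : K ≃ₐ[ℚ] K) (δ : 𝓞 K) (d : ℤ), ((δ : K)) ^ 2 = (d : K) ∧ ¬ IsSquare d ∧
      σ (δ : K) = -(δ : K) ∧ (∀ x : K, σ (σ x) = x) ∧
      ∀ x : K, σ x = x → ∃ q : ℚ, algebraMap ℚ K q = x := by
  haveI : Algebra.IsQuadraticExtension ℚ K := ⟨h⟩
  haveI : IsGalois ℚ K := inferInstance
  have hcard : Nat.card (K ≃ₐ[ℚ] K) = 2 := by
    rw [IsGalois.card_aut_eq_finrank, h]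
  obtain ⟨σ, hσ, huniq⟩ := (Nat.card_eq_two_iff' (1 : K ≃ₐ[ℚ] K)).mp hcard
  have hσσ : ∀ x : K, σ (σ x) = x := by
    intro x
    have h1 : σ ^ 2 = 1 := by rw [← hcard]; exact pow_card_eq_one'
    have h2 := congrArg (fun f : K ≃ₐ[ℚ] K => f x) h1
    simpa [pow_two] using h2
  have hfix : ∀ x : K, σ x = x → ∃ q : ℚ, algebraMap ℚ K q = x := by
    intro x hx
    have h1 : x ∈ (⊥ : IntermediateField ℚ K) := by
      rw [IsGalois.mem_bot_iff_fixed]
      intro f
      by_cases hf : f = 1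
      · rw [hf]; rfl
      · rw [huniq f hf, hx]
    exact IntermediateField.mem_bot.mp h1
  have hz : ∃ z : K, σ z ≠ z := by
    by_contra hc
    push Not at hc
    exact hσ (AlgEquiv.ext hc)
  obtain ⟨z, hz⟩ := hz
  set δ0 := z - σ z with hδ0
  have hδne : δ0 ≠ 0 := fun h0 => hz (sub_eq_zero.mp h0).symm
  have hσδ0 : σ δ0 = -δ0 := by
    rw [hδ0, map_sub, hσσ]; ring
  obtain ⟨q, hq⟩ := hfix (δ0 ^ 2) (by rw [map_pow, hσδ0]; ring)
  set b : ℤ := (q.den : ℤ) with hb
  have hb0 : (b : ℚ) ≠ 0 := by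
    rw [hb]; exact_mod_cast q.den_nz
  have hqd : (b : ℚ) ^ 2 * q = ((q.num * b : ℤ) : ℚ) := by
    have h1 : q * (q.den : ℚ) = q.num := Rat.mul_den_eq_num q
    rw [hb]
    push_cast
    linear_combination (q.den : ℚ) * h1
  have hsq : ((b : K) * δ0) ^ 2 = ((q.num * b : ℤ) : K) := by
    rw [mul_pow, ← hq]
    have h1 := congrArg (algebraMap ℚ K) hqd
    rw [map_mul, map_pow, map_intCast, map_intCast] at h1
    exact h1
  have hint : IsIntegral ℤ ((b : K) * δ0) := by
    refine IsIntegral.of_pow (n := 2) (by norm_num) ?_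
    rw [hsq]
    exact isIntegral_algebraMap
  have hbK : (b : K) ≠ 0 := by exact_mod_cast hb0
  have hne : (b : K) * δ0 ≠ 0 := mul_ne_zero hbK hδne
  have hσb : σ ((b : K) * δ0) = -((b : K) * δ0) := by
    rw [map_mul, hσδ0, map_intCast]; ring
  refine ⟨σ, ⟨(b : K) * δ0, hint⟩, q.num * b, hsq, ?_, hσb, hσσ, hfix⟩
  rintro ⟨c, hc⟩
  have h1 : ((b : K) * δ0 - c) * ((b : K) * δ0 + c) = 0 := by
    have h2 := hsq
    rw [hc] at h2
    push_cast at h2
    linear_combination h2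
  have h3 : ∃ e : ℤ, (b : K) * δ0 = e := by
    rcases mul_eq_zero.mp h1 with h | h
    · exact ⟨c, by linear_combination h⟩
    · exact ⟨-c, by push_cast; linear_combination h⟩
  obtain ⟨e, he⟩ := h3
  have h4 : (b : K) * δ0 = -((b : K) * δ0) := by
    rw [← hσb, he, map_intCast]
  have h5 : (2 : K) * ((b : K) * δ0) = 0 := by linear_combination h4
  exact hne ((mul_eq_zero.mp h5).resolve_left two_ne_zero)

theorem good_quad (K : Type) [Field K] [NumberField K] (σ : K ≃ₐ[ℚ] K) (δ : 𝓞 K) (d : ℤ)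
    (hd : ((δ : K)) ^ 2 = (d : K)) (hd0 : d ≠ 0) (hσδ : σ (δ : K) = -(δ : K))
    (hσσ : ∀ x : K, σ (σ x) = x) (hfix : ∀ x : K, σ x = x → ∃ q : ℚ, algebraMap ℚ K q = x) :
    Good d (𝓞 K) := by
  intro s t hst
  have hΔ0 : (δ : K) ≠ 0 := by
    intro h0
    rw [h0] at hd
    apply hd0
    have : ((0 : ℤ) : K) = (d : K) := by rw [← hd]; simp
    exact_mod_cast this.symm
  set S : K := (s : K) with hS
  set T : K := (t : K) with hT
  set Δ : K := (δ : K) with hΔ
  have eq1 : (1 + 3 * S) ^ 2 - 9 * (d : K) * T ^ 2 = 1 := by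
    have := congrArg (fun x : 𝓞 K => (x : K)) hst
    simp only [map_sub, map_mul, map_add, map_one, map_ofNat, map_intCast, map_pow] at this
    exact this
  set u : K := 1 + 3 * S + 3 * (Δ * T) with hu
  set u' : K := 1 + 3 * S - 3 * (Δ * T) with hu'
  have huu : u * u' = 1 := by
    rw [hu, hu']
    linear_combination eq1 - 9 * T ^ 2 * hd
  have hσ3 : σ (3 : K) = 3 := map_ofNat σ 3
  have hσu : σ u = 1 + 3 * σ S - 3 * (Δ * σ T) := by
    rw [hu, map_add, map_add, map_mul, map_mul, map_mul, hσδ, map_one, hσ3]; ring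
  have hσu' : σ u' = 1 + 3 * σ S + 3 * (Δ * σ T) := by
    rw [hu', map_sub, map_add, map_mul, map_mul, map_mul, hσδ, map_one, hσ3]; ring
  have hSi : IsIntegral ℤ S := s.isIntegral_coe
  have hTi : IsIntegral ℤ T := t.isIntegral_coe
  have hΔi : IsIntegral ℤ Δ := δ.isIntegral_coe
  have h3i : IsIntegral ℤ (3 : K) := by
    have : IsIntegral ℤ ((3 : ℤ) : K) := isIntegral_algebraMap
    exact_mod_cast this
  have hui : IsIntegral ℤ u := (isIntegral_one.add (h3i.mul hSi)).add (h3i.mul (hΔi.mul hTi))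
  have hui' : IsIntegral ℤ u' := (isIntegral_one.add (h3i.mul hSi)).sub (h3i.mul (hΔi.mul hTi))
  have hmap : ∀ x : K, IsIntegral ℤ x → IsIntegral ℤ (σ x) := by
    intro x hx
    exact hx.map (σ.toAlgHom.restrictScalars ℤ)
  -- the norms
  have norm_int : ∀ x : K, IsIntegral ℤ x → ∃ n : ℤ, x * σ x = n := by
    intro x hx
    obtain ⟨q, hq⟩ := hfix (x * σ x) (by rw [map_mul, hσσ]; ring)
    obtain ⟨n, hn⟩ := int_of_rat (K := K) ⟨x * σ x, hx.mul (hmap x hx)⟩ q hq
    refine ⟨n, ?_⟩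
    have := congrArg (fun y : 𝓞 K => (y : K)) hn
    simpa using this
  obtain ⟨n, hn⟩ := norm_int u hui
  obtain ⟨n', hn'⟩ := norm_int u' hui'
  have hnn : n * n' = 1 := by
    have h1 : (n : K) * (n' : K) = 1 := by
      rw [← hn, ← hn']
      calc u * σ u * (u' * σ u') = (u * u') * σ (u * u') := by rw [map_mul]; ring
        _ = 1 := by rw [huu, map_one, one_mul]
    exact_mod_cast h1
  have hn1 : n = 1 := by
    rcases Int.eq_one_or_neg_one_of_mul_eq_one hnn with h | h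
    · exact h
    · exfalso
      set w : K := (S + Δ * T) + σ (S + Δ * T) + 3 * ((S + Δ * T) * σ (S + Δ * T)) with hw
      have hwi : IsIntegral ℤ w := by
        have h1 : IsIntegral ℤ (S + Δ * T) := hSi.add (hΔi.mul hTi)
        exact (h1.add (hmap _ h1)).add (h3i.mul (h1.mul (hmap _ h1)))
      have h2 : (3 : K) * w = -2 := by
        have h3 : u = 1 + 3 * (S + Δ * T) := by rw [hu]; ring
        have h4 : u * σ u = 1 + 3 * w := by
          rw [h3, map_add, map_one, map_mul, hσ3, hw]; ring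
        rw [hn, h] at h4
        push_cast at h4
        linear_combination -h4
      have h5 : algebraMap ℚ K (-2 / 3) = w := by
        have h3 : (3 : K) ≠ 0 := by norm_num
        apply mul_left_cancel₀ h3
        rw [h2, map_div₀, map_neg, map_ofNat, map_ofNat]
        field_simp
      have h6 : IsIntegral ℤ (-2 / 3 : ℚ) := by
        rw [← h5] at hwi
        exact (isIntegral_algebraMap_iff (algebraMap ℚ K).injective).mp hwi
      obtain ⟨k, hk⟩ := IsIntegrallyClosed.isIntegral_iff.mp h6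
      have h7 : (3 : ℚ) * (k : ℚ) = -2 := by
        have : (k : ℚ) = -2 / 3 := hk
        rw [this]; norm_num
      have h8 : 3 * k = -2 := by exact_mod_cast h7
      omega
  have hu0 : u ≠ 0 := by
    intro h0
    rw [h0, zero_mul] at huu
    exact zero_ne_one huu
  have hσuu : σ u = u' := by
    apply mul_left_cancel₀ hu0
    rw [hn, huu, hn1]
    simp
  have hA : 1 + 3 * σ S - 3 * (Δ * σ T) = 1 + 3 * S - 3 * (Δ * T) := by
    rw [← hσu, hσuu]
  have hB : 1 + 3 * σ S + 3 * (Δ * σ T) = 1 + 3 * S + 3 * (Δ * T) := by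
    rw [← hσu', ← hσuu, hσσ]
  have hSS : σ S = S := by
    have : (6 : K) * σ S = 6 * S := by linear_combination hA + hB
    exact mul_left_cancel₀ (by norm_num) this
  have hTT : σ T = T := by
    have : (6 * Δ) * σ T = (6 * Δ) * T := by linear_combination hB - hA
    exact mul_left_cancel₀ (mul_ne_zero (by norm_num) hΔ0) this
  obtain ⟨q, hq⟩ := hfix S hSS
  obtain ⟨r, hr⟩ := hfix T hTT
  obtain ⟨a, ha⟩ := int_of_rat s q hq
  obtain ⟨b, hb⟩ := int_of_rat t r hr
  exact ⟨a, b, ha, hb⟩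

end Pool.Agent.K1H61.Zst
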